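import Pool.Agent.N862.PP.Par
import Pool.Agent.N874.PM.Stm

/-!
# The parity at an inert prime (project PM of helper874)

By helper814. The main theorem is `p3 : S_INT → S_P3`.
-/

set_option autoImplicit false
set_option linter.all false

open Polynomial IsDedekindDomain WithZero UniqueFactorizationMonoid
open scoped Classical

namespace Pool.Agent.N814.PM

open Pool.Agent.N874.PP Pool.Agent.N862.PP

/-- The only prime over `P` is `P O`. -/
theorem eq_span (hI : S_INT) {k K L O : Type} [Field k] [Field K] [Algebra k[X] K]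
    [IsFractionRing k[X] K]
    [Field L] [Algebra K L] [Algebra k[X] L] [IsScalarTower k[X] K L] [CommRing O]
    [IsDedekindDomain O] [Algebra O L] [IsFractionRing O L] [Algebra k[X] O]
    [IsScalarTower k[X] O L] [IsIntegralClosure O k[X] L] {a b : k[X]} {θ : L}
    (h6 : (6 : k) ≠ 0) (h : IsCub K a b θ)
    (hsq : Squarefree (dsc a b)) {P : k[X]} (hP : Irreducible P)
    (hns : ∀ z : k[X], ¬ P ∣ z ^ 3 + a * z + b) {t : O} (ht : algebraMap O L t = θ)
    (htr : t ^ 3 + algebraMap k[X] O a * t + algebraMap k[X] O b = 0)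
    {𝔓 : HeightOneSpectrum O} (hov : Ov P 𝔓) :
    𝔓.asIdeal = Ideal.span {algebraMap k[X] O P} := by
  have hmax : (Ideal.span {P} : Ideal k[X]).IsMaximal :=
    PrincipalIdealRing.isMaximal_of_irreducible hP
  letI : Field (k[X] ⧸ Ideal.span {P}) := Ideal.Quotient.field _
  have hpr : 𝔓.asIdeal.IsPrime := 𝔓.isPrime
  haveI : Nontrivial (O ⧸ 𝔓.asIdeal) := Ideal.Quotient.nontrivial_iff.mpr hpr.ne_top
  have hle : (Ideal.span {P} : Ideal k[X]) ≤ 𝔓.asIdeal.comap (algebraMap k[X] O) := by
    rw [Ideal.span_singleton_le_iff_mem]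
    exact hov
  let ι : (k[X] ⧸ Ideal.span {P}) →+* (O ⧸ 𝔓.asIdeal) :=
    Ideal.quotientMap 𝔓.asIdeal (algebraMap k[X] O) hle
  have hι : ∀ x : k[X], ι (Ideal.Quotient.mk _ x) =
      Ideal.Quotient.mk 𝔓.asIdeal (algebraMap k[X] O x) := fun x => by
    simp only [ι, Ideal.quotientMap_mk]
  let q : k[X] →+* (k[X] ⧸ Ideal.span {P}) := Ideal.Quotient.mk _
  have hq : ∀ x : k[X], q x = 0 ↔ P ∣ x := fun x => by
    simp only [q, Ideal.Quotient.eq_zero_iff_mem, Ideal.mem_span_singleton]
  let f : (k[X] ⧸ Ideal.span {P})[X] := X ^ 3 + C (q a) * X + C (q b)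
  have hfm : f.Monic := by
    simp only [f]
    monicity!
  have hfd : f.natDegree = 3 := by
    simp only [f]
    compute_degree!
  have hfi : Irreducible f := by
    rw [hfm.irreducible_iff_roots_eq_zero_of_degree_le_three (by omega) (by omega)]
    rw [Multiset.eq_zero_iff_forall_notMem]
    intro x hx
    rw [mem_roots hfm.ne_zero, IsRoot.def] at hx
    obtain ⟨z, rfl⟩ := Ideal.Quotient.mk_surjective x
    refine hns z ((hq _).mp ?_)
    simp only [f, eval_add, eval_mul, eval_pow, eval_X, eval_C] at hx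
    simpa [q] using hx
  refine le_antisymm ?_ ?_
  · intro z hz
    obtain ⟨v, hv⟩ := (hI k K L a b θ h6 h hsq _).mp (isInt (L := L) z)
    have hz' : z = algebraMap k[X] O (v 0) + algebraMap k[X] O (v 1) * t +
        algebraMap k[X] O (v 2) * t ^ 2 := by
      apply IsFractionRing.injective O L
      unfold Crd at hv
      simp only [map_add, map_mul, map_pow, ht, hv, ← IsScalarTower.algebraMap_apply k[X] O L]
    let w : (k[X] ⧸ Ideal.span {P})[X] := C (q (v 0)) + C (q (v 1)) * X + C (q (v 2)) * X ^ 2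
    have hw0 : w = 0 := by
      by_contra hne
      have hnd : ¬ f ∣ w := by
        intro hd
        have h1 := Polynomial.natDegree_le_of_dvd hd hne
        have h2 : w.natDegree ≤ 2 := by
          simp only [w]
          compute_degree
        omega
      obtain ⟨u, u', hu⟩ := (hfi.coprime_iff_not_dvd).mpr hnd
      have h1 := congrArg (eval₂ ι (Ideal.Quotient.mk 𝔓.asIdeal t)) hu
      have h2 : eval₂ ι (Ideal.Quotient.mk 𝔓.asIdeal t) f = 0 := by
        simp only [f, eval₂_add, eval₂_mul, eval₂_pow, eval₂_X, eval₂_C, q, hι]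
        rw [← map_pow, ← map_mul, ← map_add, ← map_add, htr, map_zero]
      have h3 : eval₂ ι (Ideal.Quotient.mk 𝔓.asIdeal t) w = 0 := by
        simp only [w, eval₂_add, eval₂_mul, eval₂_pow, eval₂_X, eval₂_C, q, hι]
        rw [← map_pow, ← map_mul, ← map_mul, ← map_add, ← map_add, ← hz',
          Ideal.Quotient.eq_zero_iff_mem]
        exact hz
      rw [eval₂_add, eval₂_mul, eval₂_mul, h2, h3, mul_zero, mul_zero, add_zero, eval₂_one] at h1
      exact zero_ne_one h1
    have hc : ∀ i, P ∣ v i := by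
      have c0 : w.coeff 0 = q (v 0) := by simp [w]
      have c1 : w.coeff 1 = q (v 1) := by simp [w, coeff_X, coeff_C]
      have c2 : w.coeff 2 = q (v 2) := by simp [w, coeff_X, coeff_C]
      rw [hw0, coeff_zero] at c0 c1 c2
      intro i
      fin_cases i
      · exact (hq _).mp c0.symm
      · exact (hq _).mp c1.symm
      · exact (hq _).mp c2.symm
    have hm : ∀ i, algebraMap k[X] O (v i) ∈ Ideal.span {algebraMap k[X] O P} := fun i =>
      Ideal.mem_span_singleton.mpr (map_dvd _ (hc i))
    rw [hz']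
    exact add_mem (add_mem (hm 0) (Ideal.mul_mem_right _ _ (hm 1)))
      (Ideal.mul_mem_right _ _ (hm 2))
  · rw [Ideal.span_singleton_le_iff_mem]
    exact hov

theorem cn_three {k K L O : Type} [Field k] [Field K] [Algebra k[X] K]
    [IsFractionRing k[X] K]
    [Field L] [Algebra K L] [Algebra k[X] L] [IsScalarTower k[X] K L] [CommRing O]
    [IsDedekindDomain O] [Algebra O L] [IsFractionRing O L] [Algebra k[X] O]
    [IsScalarTower k[X] O L] [IsIntegralClosure O k[X] L] {a b : k[X]} {θ : L}
    [Module.Finite k[X] O] [Module.IsTorsionFree k[X] O] (h : IsCub K a b θ)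
    {P : k[X]} (hP : Irreducible P) :
    cn k[X] (Ideal.span {P}) (Ideal.span {algebraMap k[X] O P} : Ideal O) = 3 := by
  have hcr : Crd θ ![P, 0, 0] (algebraMap O L (algebraMap k[X] O P)) := by
    unfold Crd
    simp [← IsScalarTower.algebraMap_apply k[X] O L]
  have hn : Algebra.intNorm k[X] O (algebraMap k[X] O P) = P ^ 3 := by
    rw [intNorm_crd h hcr]
    simp only [dn, Matrix.cons_val_zero, Matrix.cons_val_one, Matrix.cons_val]
    ring
  have hirr : Irreducible (Ideal.span {P} : Ideal k[X]) :=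
    (Ideal.prime_of_isPrime (by simpa using hP.ne_zero)
      ((Ideal.span_singleton_prime hP.ne_zero).mpr hP.prime)).irreducible
  unfold cn
  rw [Ideal.relNorm_singleton, hn, ← Ideal.span_singleton_pow, normalizedFactors_pow,
    Multiset.count_nsmul, normalizedFactors_irreducible hirr, normalize_eq,
    Multiset.count_singleton_self]

/-- **P3.** -/
theorem p3 (hI : S_INT) : Pool.Agent.N874.PM.S_P3 := by
  intro k K L O _ _ _ _ _ _ _ _ _ _ _ _ _ _ _ a b θ h6 h hsq P hP hns x hx hnx 𝔓 hov
  obtain ⟨t, ht, htr⟩ := exists_theta (K := K) (O := O) h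
  have hfin : Module.Finite k[X] O := fin_O (K := K) (L := L) hI h6 h hsq
  have htf : Module.IsTorsionFree k[X] O := tf_O (K := K) (L := L)
  have hspan : ∀ 𝔮 : HeightOneSpectrum O, Ov P 𝔮 →
      𝔮.asIdeal = Ideal.span {algebraMap k[X] O P} := fun 𝔮 hq =>
    eq_span (K := K) (L := L) hI h6 h hsq hP hns ht htr hq
  refine parity h hP 𝔓 hov ?_ hx hnx fun 𝔮 ho hne => ?_
  · rw [hspan 𝔓 hov, cn_three (K := K) (L := L) h hP]
    decide
  · exact absurd (HeightOneSpectrum.ext ((hspan 𝔮 ho).trans (hspan 𝔓 hov).symm)) hne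

end Pool.Agent.N814.PM
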